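import Mathlib

set_option autoImplicit false

/-!
# Rational solutions of the functional equation of quantum multiplication

For a set `P` of primes let `S(P)` be the multiplicative semigroup generated by `P`.  We answer the
question for every `P`: every sequence of rational functions with support `S(P)` and
`f_{mn}(q) = f_m(q) f_n(q^m)` is a quotient of two sequences of polynomials with the same support
satisfying the same equation if and only if `P` has at most one element.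

For two distinct primes in `P` the sequence `f_n(q) = (q^n - 2)/(q - 2)` is not such a quotient:
a polynomial solution never vanishes at `2`.
-/

namespace Pool.Agent.Results.MP_bcdf42_nt.RationalSolutions

open Polynomial

/-- `S(P)`: the positive integers in the multiplicative semigroup (with `1`) generated by `P`. -/
def S (P : Set ℕ) : Set ℕ+ := {n | (n : ℕ) ∈ Submonoid.closure P}

/-- The rational function `f(q^m)`. -/
noncomputable def subst (m : ℕ+) (f : RatFunc ℂ) : RatFunc ℂ :=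
  RatFunc.eval RatFunc.C (RatFunc.X ^ (m : ℕ)) f

/-- The sequences of rational functions with support `S(P)` satisfying the functional equation. -/
def RatSol (P : Set ℕ) : Set (ℕ+ → RatFunc ℂ) :=
  {f | (∀ n, f n ≠ 0 ↔ n ∈ S P) ∧ ∀ m n, f (m * n) = f m * subst m (f n)}

/-- `Γ(P)`: the sequences of polynomials with support `S(P)` satisfying the functional equation. -/
def Gam (P : Set ℕ) : Set (ℕ+ → ℂ[X]) :=
  {F | (∀ n, F n ≠ 0 ↔ n ∈ S P) ∧ ∀ m n, F (m * n) = F m * (F n).comp (X ^ (m : ℕ))}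

open Classical in
/-- `K(Γ(P))`: the termwise quotients of elements of `Γ(P)` (`0` outside of `S(P)`). -/
noncomputable def KGam (P : Set ℕ) : Set (ℕ+ → RatFunc ℂ) :=
  {f | ∃ F ∈ Gam P, ∃ G ∈ Gam P, ∀ n, f n =
    if n ∈ S P then algebraMap ℂ[X] (RatFunc ℂ) (F n) / algebraMap ℂ[X] (RatFunc ℂ) (G n) else 0}

/-! ### Substitution -/

theorem eval₂_eq (m : ℕ+) (p : ℂ[X]) :
    p.eval₂ RatFunc.C (RatFunc.X ^ (m : ℕ)) = algebraMap ℂ[X] (RatFunc ℂ) (p.comp (X ^ (m : ℕ))) := by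
  rw [Polynomial.comp, Polynomial.hom_eval₂]
  congr 1
  simp

theorem comp_ne_zero (m : ℕ+) {p : ℂ[X]} (hp : p ≠ 0) : p.comp (X ^ (m : ℕ)) ≠ 0 := by
  intro h
  rw [← Polynomial.expand_eq_comp_X_pow] at h
  exact hp ((Polynomial.expand_eq_zero m.pos).mp h)

theorem subst_div (m : ℕ+) (a : ℂ[X]) {b : ℂ[X]} (hb : b ≠ 0) :
    subst m (algebraMap ℂ[X] (RatFunc ℂ) a / algebraMap ℂ[X] (RatFunc ℂ) b)
      = algebraMap ℂ[X] (RatFunc ℂ) (a.comp (X ^ (m : ℕ)))
        / algebraMap ℂ[X] (RatFunc ℂ) (b.comp (X ^ (m : ℕ))) := by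
  set x := algebraMap ℂ[X] (RatFunc ℂ) a / algebraMap ℂ[X] (RatFunc ℂ) b with hx
  have h1 : x.num * b = a * x.denom := (RatFunc.num_mul_eq_mul_denom_iff hb).mpr hx
  rw [subst, RatFunc.eval, eval₂_eq, eval₂_eq]
  have h2 : x.num.comp (X ^ (m : ℕ)) * b.comp (X ^ (m : ℕ))
      = a.comp (X ^ (m : ℕ)) * x.denom.comp (X ^ (m : ℕ)) := by
    rw [← Polynomial.mul_comp, h1, Polynomial.mul_comp]
  rw [div_eq_div_iff
    (RatFunc.algebraMap_ne_zero (comp_ne_zero m (RatFunc.denom_ne_zero x)))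
    (RatFunc.algebraMap_ne_zero (comp_ne_zero m hb)), ← map_mul, ← map_mul, h2]

/-! ### Values of polynomial solutions -/

theorem mem_S_one (P : Set ℕ) : (1 : ℕ+) ∈ S P := by
  simp [S]

theorem mem_S_of_mem {P : Set ℕ} {p : ℕ+} (hp : (p : ℕ) ∈ P) : p ∈ S P :=
  Submonoid.subset_closure hp

theorem mem_S_pow {P : Set ℕ} {p : ℕ+} (hp : (p : ℕ) ∈ P) (k : ℕ) : p ^ k ∈ S P := by
  show ((p ^ k : ℕ+) : ℕ) ∈ Submonoid.closure P
  rw [PNat.pow_coe]
  exact pow_mem (Submonoid.subset_closure hp) k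

theorem Gam_one {P : Set ℕ} {G : ℕ+ → ℂ[X]} (hG : G ∈ Gam P) : G 1 = 1 := by
  have h0 : G 1 ≠ 0 := (hG.1 1).mpr (mem_S_one P)
  have h1 := hG.2 1 1
  simp only [mul_one, PNat.one_coe, pow_one, comp_X] at h1
  exact (mul_right_cancel₀ h0 (by rw [one_mul]; exact h1)).symm

theorem eval_mul_eq {P : Set ℕ} {G : ℕ+ → ℂ[X]} (hG : G ∈ Gam P) (m n : ℕ+) (x : ℂ) :
    (G (m * n)).eval x = (G m).eval x * (G n).eval (x ^ (m : ℕ)) := by
  rw [hG.2 m n, Polynomial.eval_mul, Polynomial.eval_comp]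
  simp

theorem exists_root {P : Set ℕ} {G : ℕ+ → ℂ[X]} (hG : G ∈ Gam P) (b : ℕ+) (x : ℂ) (k : ℕ)
    (h : (G (b ^ k)).eval x = 0) : ∃ j, (G b).eval (x ^ ((b : ℕ) ^ j)) = 0 := by
  induction k with
  | zero =>
    rw [pow_zero, Gam_one hG] at h
    simp at h
  | succ k ih =>
    rw [pow_succ, eval_mul_eq hG, PNat.pow_coe] at h
    rcases mul_eq_zero.mp h with h | h
    · exact ih h
    · exact ⟨k, h⟩

/-- a polynomial solution does not vanish at `2` -/
theorem eval_two_ne_zero {P : Set ℕ} {G : ℕ+ → ℂ[X]} (hG : G ∈ Gam P) (a b : ℕ+)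
    (ha : (a : ℕ) ∈ P) (hb : (b : ℕ) ∈ P) (pa : (a : ℕ).Prime) (pb : (b : ℕ).Prime)
    (hab : (a : ℕ) ≠ b) : (G a).eval 2 ≠ 0 := by
  intro h0
  have hcop : Nat.Coprime (a : ℕ) b := (Nat.coprime_primes pa pb).mpr hab
  -- the roots `y i`
  have hy : ∀ i : ℕ, ∃ y : ℝ, 1 < y ∧ y ^ ((a : ℕ) ^ i) = 2 := by
    intro i
    have hne : (a : ℕ) ^ i ≠ 0 := pow_ne_zero _ pa.ne_zero
    refine ⟨(2 : ℝ) ^ (((a : ℕ) ^ i : ℕ) : ℝ)⁻¹, ?_, ?_⟩
    · apply Real.one_lt_rpow (by norm_num)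
      positivity
    · exact Real.rpow_inv_natCast_pow (by norm_num) hne
  choose y hy1 hy2 using hy
  -- `y i ^ (b ^ k)` are pairwise distinct
  have hinj : ∀ i, Function.Injective fun k : ℕ => ((y i : ℂ)) ^ ((b : ℕ) ^ k) := by
    intro i k l hkl
    simp only at hkl
    have h1 : (y i) ^ ((b : ℕ) ^ k) = (y i) ^ ((b : ℕ) ^ l) := by exact_mod_cast hkl
    have h2 : (b : ℕ) ^ k = (b : ℕ) ^ l := pow_right_injective₀ (by linarith [hy1 i]) (hy1 i).ne' h1
    exact Nat.pow_right_injective pb.two_le h2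
  have key : ∀ i : ℕ, ∃ j : ℕ, (G b).eval ((y i : ℂ) ^ ((b : ℕ) ^ j)) = 0 := by
    intro i
    have hne : G (a ^ (i + 1)) ≠ 0 := (hG.1 _).mpr (mem_S_pow ha _)
    have h1 : (G (a ^ (i + 1))).eval (y i : ℂ) = 0 := by
      rw [pow_succ, eval_mul_eq hG, PNat.pow_coe]
      have : ((y i : ℂ)) ^ ((a : ℕ) ^ i) = 2 := by exact_mod_cast hy2 i
      rw [this, h0, mul_zero]
    obtain ⟨k, hk⟩ : ∃ k : ℕ, (G (a ^ (i + 1))).eval ((y i : ℂ) ^ ((b : ℕ) ^ k)) ≠ 0 := by
      by_contra hcon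
      push Not at hcon
      have hsub : Set.range (fun k : ℕ => ((y i : ℂ)) ^ ((b : ℕ) ^ k))
          ⊆ {x | (G (a ^ (i + 1))).IsRoot x} := by
        rintro _ ⟨k, rfl⟩
        exact hcon k
      exact (Set.infinite_range_of_injective (hinj i)) ((Polynomial.finite_setOfPred_isRoot hne).subset hsub)
    have h2 := eval_mul_eq hG (a ^ (i + 1)) (b ^ k) (y i : ℂ)
    rw [mul_comm, eval_mul_eq hG (b ^ k) (a ^ (i + 1)) (y i : ℂ), h1, zero_mul] at h2
    rw [PNat.pow_coe b k] at h2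
    rcases mul_eq_zero.mp h2 with h3 | h3
    · exact exists_root hG b _ k h3
    · exact absurd h3 hk
  choose j hj using key
  have hinj2 : Function.Injective fun i : ℕ => ((y i : ℂ)) ^ ((b : ℕ) ^ j i) := by
    intro i l hil
    simp only at hil
    have h1 : (y i) ^ ((b : ℕ) ^ j i) = (y l) ^ ((b : ℕ) ^ j l) := by exact_mod_cast hil
    have h2 : (2 : ℝ) ^ ((b : ℕ) ^ j i * (a : ℕ) ^ l) = (2 : ℝ) ^ ((b : ℕ) ^ j l * (a : ℕ) ^ i) := by
      calc (2 : ℝ) ^ ((b : ℕ) ^ j i * (a : ℕ) ^ l)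
          = ((y i) ^ ((b : ℕ) ^ j i)) ^ ((a : ℕ) ^ i * (a : ℕ) ^ l) := by
            rw [← hy2 i, ← pow_mul, ← pow_mul]; ring_nf
        _ = ((y l) ^ ((b : ℕ) ^ j l)) ^ ((a : ℕ) ^ i * (a : ℕ) ^ l) := by rw [h1]
        _ = (2 : ℝ) ^ ((b : ℕ) ^ j l * (a : ℕ) ^ i) := by
            rw [← hy2 l, ← pow_mul, ← pow_mul]; ring_nf
    have h3 : (b : ℕ) ^ j i * (a : ℕ) ^ l = (b : ℕ) ^ j l * (a : ℕ) ^ i :=
      pow_right_injective₀ (by norm_num) (by norm_num) h2
    have h4 : (a : ℕ) ^ l ∣ (a : ℕ) ^ i := by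
      have : (a : ℕ) ^ l ∣ (b : ℕ) ^ j l * (a : ℕ) ^ i := ⟨(b : ℕ) ^ j i, by rw [← h3, mul_comm]⟩
      exact (Nat.Coprime.pow l (j l) hcop).dvd_of_dvd_mul_left this
    have h5 : (a : ℕ) ^ i ∣ (a : ℕ) ^ l := by
      have : (a : ℕ) ^ i ∣ (b : ℕ) ^ j i * (a : ℕ) ^ l := ⟨(b : ℕ) ^ j l, by rw [h3, mul_comm]⟩
      exact (Nat.Coprime.pow i (j i) hcop).dvd_of_dvd_mul_left this
    exact Nat.pow_right_injective pa.two_le (Nat.dvd_antisymm h5 h4)
  have hne : G b ≠ 0 := (hG.1 _).mpr (mem_S_of_mem hb)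
  have hsub : Set.range (fun i : ℕ => ((y i : ℂ)) ^ ((b : ℕ) ^ j i)) ⊆ {x | (G b).IsRoot x} := by
    rintro _ ⟨i, rfl⟩
    exact hj i
  exact (Set.infinite_range_of_injective hinj2) ((Polynomial.finite_setOfPred_isRoot hne).subset hsub)

/-! ### The semigroup `S(P)` -/

theorem mem_closure_iff {P : Set ℕ} (hP : ∀ p ∈ P, p.Prime) {n : ℕ} (hn : n ≠ 0) :
    n ∈ Submonoid.closure P ↔ ∀ q, q.Prime → q ∣ n → q ∈ P := by
  constructor
  · intro h
    induction h using Submonoid.closure_induction with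
    | mem x hx =>
      intro q hq hqx
      rwa [(Nat.prime_dvd_prime_iff_eq hq (hP x hx)).mp hqx]
    | one =>
      intro q hq hq1
      exact absurd (Nat.dvd_one.mp hq1) hq.ne_one
    | mul x y _ _ hx hy =>
      intro q hq hqxy
      have hx0 : x ≠ 0 := left_ne_zero_of_mul hn
      have hy0 : y ≠ 0 := right_ne_zero_of_mul hn
      rcases (Nat.Prime.dvd_mul hq).mp hqxy with h | h
      · exact hx hx0 q hq h
      · exact hy hy0 q hq h
  · intro h
    rw [← Nat.prod_primeFactorsList hn]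
    apply Submonoid.list_prod_mem
    intro q hq
    exact Submonoid.subset_closure (h q (Nat.prime_of_mem_primeFactorsList hq)
      (Nat.dvd_of_mem_primeFactorsList hq))

theorem mul_mem_S {P : Set ℕ} (hP : ∀ p ∈ P, p.Prime) (m n : ℕ+) :
    m * n ∈ S P ↔ m ∈ S P ∧ n ∈ S P := by
  simp only [S, Set.mem_ofPred_eq]
  rw [mem_closure_iff hP (m * n).ne_zero, mem_closure_iff hP m.ne_zero,
    mem_closure_iff hP n.ne_zero, PNat.mul_coe]
  constructor
  · intro h
    exact ⟨fun q hq hqm => h q hq (hqm.mul_right _), fun q hq hqn => h q hq (hqn.mul_left _)⟩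
  · rintro ⟨h1, h2⟩ q hq hqmn
    rcases (Nat.Prime.dvd_mul hq).mp hqmn with h | h
    · exact h1 q hq h
    · exact h2 q hq h

theorem subst_zero (m : ℕ+) : subst m 0 = 0 := by
  rw [subst, RatFunc.eval_zero]

/-! ### The counterexample for two primes -/

open Classical in
/-- `(q^n - 2)/(q - 2)` on `S(P)` -/
noncomputable def ex (P : Set ℕ) (n : ℕ+) : RatFunc ℂ :=
  if n ∈ S P then algebraMap ℂ[X] (RatFunc ℂ) (X ^ (n : ℕ) - C 2)
    / algebraMap ℂ[X] (RatFunc ℂ) (X - C 2) else 0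

theorem ex_mem {P : Set ℕ} (hP : ∀ p ∈ P, p.Prime) : ex P ∈ RatSol P := by
  classical
  constructor
  · intro n
    rw [ex]
    split_ifs with h
    · simp only [h, iff_true]
      exact div_ne_zero (RatFunc.algebraMap_ne_zero (X_pow_sub_C_ne_zero n.pos 2))
        (RatFunc.algebraMap_ne_zero (X_sub_C_ne_zero 2))
    · simp [h]
  · intro m n
    by_cases h : m * n ∈ S P
    · obtain ⟨hm, hn⟩ := (mul_mem_S hP m n).mp h
      rw [ex, ex, ex, if_pos h, if_pos hm, if_pos hn, subst_div m _ (X_sub_C_ne_zero 2)]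
      have e1 : (X ^ (n : ℕ) - C 2 : ℂ[X]).comp (X ^ (m : ℕ)) = X ^ ((m * n : ℕ+) : ℕ) - C 2 := by
        rw [sub_comp, C_comp, pow_comp, X_comp, ← pow_mul, PNat.mul_coe]
      have e2 : (X - C 2 : ℂ[X]).comp (X ^ (m : ℕ)) = X ^ (m : ℕ) - C 2 := by
        rw [sub_comp, C_comp, X_comp]
      rw [e1, e2]
      have h1 : algebraMap ℂ[X] (RatFunc ℂ) (X ^ (m : ℕ) - C 2) ≠ 0 :=
        RatFunc.algebraMap_ne_zero (X_pow_sub_C_ne_zero m.pos 2)
      have h2 : algebraMap ℂ[X] (RatFunc ℂ) (X - C 2) ≠ 0 :=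
        RatFunc.algebraMap_ne_zero (X_sub_C_ne_zero 2)
      field_simp
    · have hmn : ¬ (m ∈ S P ∧ n ∈ S P) := fun h' => h ((mul_mem_S hP m n).mpr h')
      rw [ex, if_neg h]
      by_cases hm : m ∈ S P
      · have hn : n ∉ S P := fun hn => hmn ⟨hm, hn⟩
        rw [ex, ex, if_neg hn, subst_zero, mul_zero]
      · rw [ex, if_neg hm, zero_mul]

theorem ex_not_mem {P : Set ℕ} (a b : ℕ+) (ha : (a : ℕ) ∈ P) (hb : (b : ℕ) ∈ P)
    (pa : (a : ℕ).Prime) (pb : (b : ℕ).Prime) (hab : (a : ℕ) ≠ b) : ex P ∉ KGam P := by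
  classical
  rintro ⟨F, hF, G, hG, h⟩
  have h1 := h a
  have haS : a ∈ S P := mem_S_of_mem ha
  rw [ex, if_pos haS, if_pos haS] at h1
  have hGa : G a ≠ 0 := (hG.1 a).mpr haS
  rw [div_eq_div_iff (RatFunc.algebraMap_ne_zero (X_sub_C_ne_zero 2))
    (RatFunc.algebraMap_ne_zero hGa), ← map_mul, ← map_mul] at h1
  have h2 := RatFunc.algebraMap_injective ℂ h1
  have h3 := congrArg (Polynomial.eval 2) h2
  simp only [eval_mul, eval_sub, eval_pow, eval_X, eval_C, sub_self, mul_zero] at h3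
  rcases mul_eq_zero.mp h3 with h4 | h4
  · have h5 : (2 : ℂ) ^ (a : ℕ) = 2 ^ 1 := by rw [pow_one]; exact sub_eq_zero.mp h4
    have h6 : (2 : ℕ) ^ (a : ℕ) = 2 ^ 1 := by exact_mod_cast h5
    have h7 := Nat.pow_right_injective le_rfl h6
    exact pa.one_lt.ne' h7
  · exact eval_two_ne_zero hG a b ha hb pa pb hab h4

/-! ### At most one prime -/

theorem mem_S_empty (n : ℕ+) : n ∈ S ∅ ↔ n = 1 := by
  simp [S, Submonoid.closure_empty, Submonoid.mem_bot]

theorem subst_one (f : RatFunc ℂ) : subst 1 f = f := by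
  conv_lhs => rw [← RatFunc.num_div_denom f]
  rw [subst_div 1 _ (RatFunc.denom_ne_zero f)]
  simp

theorem RatSol_one {P : Set ℕ} {f : ℕ+ → RatFunc ℂ} (hf : f ∈ RatSol P) : f 1 = 1 := by
  have h0 : f 1 ≠ 0 := (hf.1 1).mpr (mem_S_one P)
  have h1 := hf.2 1 1
  rw [subst_one, mul_one] at h1
  exact (mul_right_cancel₀ h0 (by rw [one_mul]; exact h1)).symm

theorem case_empty {f : ℕ+ → RatFunc ℂ} (hf : f ∈ RatSol ∅) : f ∈ KGam ∅ := by
  classical
  have hG : (fun n : ℕ+ => if n = 1 then (1 : ℂ[X]) else 0) ∈ Gam ∅ := by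
    constructor
    · intro n
      rw [mem_S_empty]
      by_cases h : n = 1 <;> simp [h]
    · intro m n
      by_cases hm : m = 1
      · subst hm
        by_cases hn : n = 1 <;> simp [hn]
      · have : m * n ≠ 1 := fun h => hm (by
          have h1 : (m : ℕ) * n = 1 := by exact_mod_cast congrArg PNat.val h
          exact PNat.coe_eq_one_iff.mp (Nat.eq_one_of_mul_eq_one_right h1))
        simp [hm, this]
  refine ⟨_, hG, _, hG, fun n => ?_⟩
  by_cases hn : n = 1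
  · subst hn
    rw [if_pos (mem_S_one _), RatSol_one hf]
    simp
  · have h1 : n ∉ S ∅ := fun h => hn ((mem_S_empty n).mp h)
    rw [if_neg h1]
    by_contra h2
    exact h1 ((hf.1 n).mp h2)

open Classical in
/-- the polynomial solution with support `S({p})` and value `c` at `p` -/
noncomputable def seq (p : ℕ) (c : ℂ[X]) (n : ℕ+) : ℂ[X] :=
  if n ∈ S {p} then ∏ j ∈ Finset.range (Nat.log p n), c.comp (X ^ (p ^ j)) else 0

theorem mem_S_singleton {p : ℕ+} {n : ℕ+} : n ∈ S {(p : ℕ)} ↔ ∃ k : ℕ, n = p ^ k := by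
  simp only [S, Set.mem_ofPred_eq, Submonoid.mem_closure_singleton]
  constructor
  · rintro ⟨k, hk⟩
    exact ⟨k, PNat.eq (by rw [PNat.pow_coe, hk])⟩
  · rintro ⟨k, rfl⟩
    exact ⟨k, (PNat.pow_coe p k).symm⟩

theorem seq_pow {p : ℕ+} (hp : (p : ℕ).Prime) (c : ℂ[X]) (k : ℕ) :
    seq p c (p ^ k) = ∏ j ∈ Finset.range k, c.comp (X ^ ((p : ℕ) ^ j)) := by
  classical
  rw [seq, if_pos (mem_S_singleton.mpr ⟨k, rfl⟩), PNat.pow_coe, Nat.log_pow hp.one_lt]

theorem seq_ne_zero {p : ℕ+} (hp : (p : ℕ).Prime) {c : ℂ[X]} (hc : c ≠ 0) (k : ℕ) :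
    seq p c (p ^ k) ≠ 0 := by
  rw [seq_pow hp, Finset.prod_ne_zero_iff]
  intro j _
  have := comp_ne_zero (p ^ j) hc
  rwa [PNat.pow_coe] at this

theorem seq_mem {p : ℕ+} (hp : (p : ℕ).Prime) {c : ℂ[X]} (hc : c ≠ 0) :
    seq p c ∈ Gam {(p : ℕ)} := by
  classical
  have hP : ∀ q ∈ ({(p : ℕ)} : Set ℕ), q.Prime := by
    intro q hq
    rw [Set.mem_singleton_iff.mp hq]
    exact hp
  constructor
  · intro n
    constructor
    · intro h
      by_contra h'
      exact h (by rw [seq, if_neg h'])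
    · intro h
      obtain ⟨k, rfl⟩ := mem_S_singleton.mp h
      exact seq_ne_zero hp hc k
  · intro m n
    by_cases h : m * n ∈ S {(p : ℕ)}
    · obtain ⟨hm, hn⟩ := (mul_mem_S hP m n).mp h
      obtain ⟨k, rfl⟩ := mem_S_singleton.mp hm
      obtain ⟨l, rfl⟩ := mem_S_singleton.mp hn
      rw [← pow_add, seq_pow hp, seq_pow hp, seq_pow hp, Finset.prod_range_add,
        Polynomial.prod_comp]
      congr 1
      apply Finset.prod_congr rfl
      intro j _
      rw [Polynomial.comp_assoc, pow_comp, X_comp, ← pow_mul, PNat.pow_coe, ← pow_add]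
    · have hmn : ¬ (m ∈ S {(p : ℕ)} ∧ n ∈ S {(p : ℕ)}) := fun h' => h ((mul_mem_S hP m n).mpr h')
      rw [seq, if_neg h]
      by_cases hm : m ∈ S {(p : ℕ)}
      · have hn : n ∉ S {(p : ℕ)} := fun hn => hmn ⟨hm, hn⟩
        rw [seq, seq, if_neg hn, zero_comp, mul_zero]
      · rw [seq, if_neg hm, zero_mul]

theorem case_singleton {p : ℕ+} (hp : (p : ℕ).Prime) {f : ℕ+ → RatFunc ℂ}
    (hf : f ∈ RatSol {(p : ℕ)}) : f ∈ KGam {(p : ℕ)} := by
  classical
  have hp0 : f p ≠ 0 := (hf.1 p).mpr (mem_S_of_mem rfl)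
  have hnum : (f p).num ≠ 0 := RatFunc.num_ne_zero hp0
  have hden : (f p).denom ≠ 0 := RatFunc.denom_ne_zero _
  refine ⟨seq p (f p).num, seq_mem hp hnum, seq p (f p).denom, seq_mem hp hden, fun n => ?_⟩
  by_cases hn : n ∈ S {(p : ℕ)}
  · rw [if_pos hn]
    obtain ⟨k, rfl⟩ := mem_S_singleton.mp hn
    clear hn
    induction k with
    | zero =>
      rw [pow_zero, RatSol_one hf]
      have h1 : seq p (f p).num (p ^ 0) = 1 := by rw [seq_pow hp]; simp
      have h2 : seq p (f p).denom (p ^ 0) = 1 := by rw [seq_pow hp]; simp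
      rw [pow_zero] at h1 h2
      rw [h1, h2]
      simp
    | succ k ih =>
      have e : subst (p ^ k) (f p) = algebraMap ℂ[X] (RatFunc ℂ) ((f p).num.comp (X ^ ((p : ℕ) ^ k)))
          / algebraMap ℂ[X] (RatFunc ℂ) ((f p).denom.comp (X ^ ((p : ℕ) ^ k))) := by
        conv_lhs => rw [← RatFunc.num_div_denom (f p)]
        rw [subst_div _ _ hden, PNat.pow_coe]
      rw [pow_succ p k, hf.2, ih, e, ← pow_succ p k, seq_pow hp, seq_pow hp, seq_pow hp, seq_pow hp,
        Finset.prod_range_succ, Finset.prod_range_succ, map_mul, map_mul, mul_div_mul_comm]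
  · rw [if_neg hn]
    by_contra h2
    exact hn ((hf.1 n).mp h2)

/-- **Main result.**  Let `P` be a set of primes.  Every sequence of rational functions with support
`S(P)` satisfying the functional equation lies in `K(Γ(P))` if and only if `P` has at most one
element.  In particular the answer to the question is negative. -/
theorem result (P : Set ℕ) (hP : ∀ p ∈ P, p.Prime) :
    (∀ f ∈ RatSol P, f ∈ KGam P) ↔ P.Subsingleton := by
  constructor
  · intro h a ha b hb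
    by_contra hab
    have h1 := h (ex P) (ex_mem hP)
    exact ex_not_mem ⟨a, (hP a ha).pos⟩ ⟨b, (hP b hb).pos⟩ ha hb (hP a ha) (hP b hb) hab h1
  · intro hs f hf
    rcases hs.eq_empty_or_singleton with rfl | ⟨p, rfl⟩
    · exact case_empty hf
    · have hp : p.Prime := hP p rfl
      exact case_singleton (p := ⟨p, hp.pos⟩) hp hf

end Pool.Agent.Results.MP_bcdf42_nt.RationalSolutions
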